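import Mathlib

set_option autoImplicit false

/-!
# Affine flats in sets of a group of exponent two

A subset of a group `T` of exponent two and order `N` with more than `4 N^(1 - 1/2^(d-1))`
elements contains a coset `c W` of a subgroup `W` of order `2^d`.
-/

namespace Pool.Agent.Lib.MP_9a747a_co_h91

open Finset

variable {T : Type*} [CommGroup T] [Fintype T] [DecidableEq T]

/-- a subgroup of order `2^i`, as a finite set -/
structure IsSub (H : Finset T) (i : ℕ) : Prop where
  one : (1 : T) ∈ H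
  mul : ∀ x ∈ H, ∀ y ∈ H, x * y ∈ H
  card : H.card = 2 ^ i

theorem IsSub.extend (h2 : ∀ x : T, x * x = 1) {H : Finset T} {i : ℕ} (hH : IsSub H i) {h : T}
    (hh : h ∉ H) : IsSub (H ∪ H.image (fun x => h * x)) (i + 1) := by
  refine ⟨?_, ?_, ?_⟩
  · exact mem_union_left _ hH.one
  · intro x hx y hy
    rw [mem_union, mem_image] at hx hy ⊢
    rcases hx with hx | ⟨a, ha, rfl⟩
    · rcases hy with hy | ⟨b, hb, rfl⟩
      · exact Or.inl (hH.mul x hx y hy)
      · exact Or.inr ⟨x * b, hH.mul x hx b hb, by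
          rw [mul_left_comm]⟩
    · rcases hy with hy | ⟨b, hb, rfl⟩
      · exact Or.inr ⟨a * y, hH.mul a ha y hy, by rw [mul_assoc]⟩
      · left
        have : h * a * (h * b) = a * b := by
          rw [mul_mul_mul_comm, h2, one_mul]
        rw [this]
        exact hH.mul a ha b hb
  · rw [card_union_of_disjoint, card_image_of_injective _ (mul_right_injective h), hH.card, pow_succ]
    · ring
    · rw [disjoint_left]
      intro x hx hx'
      obtain ⟨y, hy, rfl⟩ := mem_image.1 hx'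
      apply hh
      have : h = h * y * y := by rw [mul_assoc, h2, mul_one]
      rw [this]
      exact hH.mul _ hx _ hy

/-- one step of the cube construction -/
theorem step (h2 : ∀ x : T, x * x = 1) {H A : Finset T} {i : ℕ} (hH : IsSub H i)
    (hA : ∀ a ∈ A, ∀ x ∈ H, a * x ∈ A) (hc : 2 ^ (i + 1) ≤ A.card) :
    ∃ h, h ∉ H ∧ ∃ B ⊆ A, (∀ b ∈ B, ∀ x ∈ H ∪ H.image (fun x => h * x), b * x ∈ B) ∧
      A.card ^ 2 ≤ 2 * Fintype.card T * B.card := by
  classical
  let B : T → Finset T := fun h => A.filter fun a => a * h ∈ A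
  -- the number of pairs
  have hsum : ∑ h : T, (B h).card = A.card ^ 2 := by
    have : ∀ h : T, (B h).card = ∑ a ∈ A, if a * h ∈ A then 1 else 0 := by
      intro h
      rw [card_filter]
    simp only [this]
    rw [sum_comm]
    have h3 : ∀ a ∈ A, (∑ h : T, if a * h ∈ A then 1 else 0) = A.card := by
      intro a _
      rw [← card_filter]
      refine card_bij (fun h _ => a * h) ?_ ?_ ?_
      · intro h hh
        exact (mem_filter.1 hh).2
      · intro x _ y _ hxy
        exact mul_left_cancel hxy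
      · intro y hy
        exact ⟨a⁻¹ * y, by simp [hy], by simp⟩
    rw [sum_congr rfl h3, sum_const, smul_eq_mul, sq]
  have hHsum : ∑ h ∈ H, (B h).card ≤ H.card * A.card := by
    calc ∑ h ∈ H, (B h).card ≤ ∑ _h ∈ H, A.card := sum_le_sum fun h _ => card_filter_le _ _
      _ = _ := by rw [sum_const, smul_eq_mul]
  have hout : A.card ^ 2 ≤ 2 * ∑ h ∈ univ \ H, (B h).card := by
    have hs : ∑ h ∈ univ \ H, (B h).card + ∑ h ∈ H, (B h).card = A.card ^ 2 := by
      rw [sum_sdiff (subset_univ H), hsum]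
    have : 2 * (H.card * A.card) ≤ A.card ^ 2 := by
      rw [hH.card, ← mul_assoc, sq]
      refine Nat.mul_le_mul_right _ ?_
      rw [mul_comm, ← pow_succ]
      exact hc
    omega
  -- the average
  by_contra hcon
  push Not at hcon
  have hlt : ∀ h ∈ univ \ H, 2 * Fintype.card T * (B h).card < A.card ^ 2 := by
    intro h hh
    have hhH : h ∉ H := (mem_sdiff.1 hh).2
    refine hcon h hhH (B h) (filter_subset _ _) ?_
    intro b hb x hx
    obtain ⟨hb1, hb2⟩ := mem_filter.1 hb
    rw [mem_union, mem_image] at hx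
    refine mem_filter.2 ?_
    rcases hx with hx | ⟨y, hy, rfl⟩
    · refine ⟨hA b hb1 x hx, ?_⟩
      rw [mul_right_comm]
      exact hA _ hb2 x hx
    · constructor
      · rw [← mul_assoc]
        exact hA _ hb2 y hy
      · have : b * (h * y) * h = b * y := by
          rw [mul_comm h y, ← mul_assoc, mul_assoc (b * y), h2, mul_one]
        rw [this]
        exact hA b hb1 y hy
  have hA0 : 0 < A.card := lt_of_lt_of_le (by positivity) hc
  have hne : (univ \ H).Nonempty := by
    by_contra hne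
    rw [not_nonempty_iff_eq_empty] at hne
    rw [hne, sum_empty] at hout
    have := pow_pos hA0 2
    omega
  have hT : 0 < Fintype.card T := Fintype.card_pos
  have h4 : ∑ h ∈ univ \ H, 2 * Fintype.card T * (B h).card < ∑ _h ∈ univ \ H, A.card ^ 2 :=
    sum_lt_sum_of_nonempty hne hlt
  rw [← mul_sum, sum_const, smul_eq_mul] at h4
  have h5 : (univ \ H).card ≤ Fintype.card T := card_le_univ _
  have h6 : (univ \ H).card * A.card ^ 2 ≤ Fintype.card T * A.card ^ 2 :=
    Nat.mul_le_mul_right _ h5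
  have h7 : Fintype.card T * A.card ^ 2 ≤ Fintype.card T * (2 * ∑ h ∈ univ \ H, (B h).card) :=
    Nat.mul_le_mul_left _ hout
  have h8 : Fintype.card T * (2 * ∑ h ∈ univ \ H, (B h).card) =
      2 * Fintype.card T * ∑ h ∈ univ \ H, (B h).card := by ring
  omega

/-- iterated form, with real numbers: after `i` steps `|B| / (2N) ≥ (|S| / (2N))^(2^i)` -/
theorem iter (h2 : ∀ x : T, x * x = 1) (S : Finset T) (i : ℕ)
    (hS : ∀ j < i, (2 : ℝ) ^ (j + 1) ≤ 2 * Fintype.card T *
      ((S.card : ℝ) / (2 * Fintype.card T)) ^ (2 ^ j)) :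
    ∃ H B : Finset T, IsSub H i ∧ B ⊆ S ∧ (∀ b ∈ B, ∀ x ∈ H, b * x ∈ B) ∧
      2 * Fintype.card T * ((S.card : ℝ) / (2 * Fintype.card T)) ^ (2 ^ i) ≤ B.card := by
  have hN : (0 : ℝ) < 2 * Fintype.card T := by
    have : 0 < Fintype.card T := Fintype.card_pos
    positivity
  induction i with
  | zero =>
    refine ⟨{1}, S, ⟨by simp, by simp, by simp⟩, subset_rfl, ?_, ?_⟩
    · intro b hb x hx
      rw [mem_singleton] at hx
      rw [hx, mul_one]
      exact hb
    · rw [pow_zero, pow_one, mul_div_cancel₀ _ hN.ne']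
  | succ i ih =>
    obtain ⟨H, B, hH, hBS, hB, hcard⟩ := ih fun j hj => hS j (by omega)
    have hc : 2 ^ (i + 1) ≤ B.card := by
      have := (hS i (by omega)).trans hcard
      exact_mod_cast this
    obtain ⟨h, hh, C, hC1, hC2, hC3⟩ := step h2 hH hB hc
    refine ⟨_, C, hH.extend h2 hh, hC1.trans hBS, hC2, ?_⟩
    have h3 : ((B.card : ℝ)) ^ 2 ≤ 2 * Fintype.card T * C.card := by exact_mod_cast hC3
    have h4 : (2 * Fintype.card T * ((S.card : ℝ) / (2 * Fintype.card T)) ^ (2 ^ i)) ^ 2 ≤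
        2 * Fintype.card T * C.card :=
      (pow_le_pow_left₀ (by positivity) hcard 2).trans h3
    have h5 : (2 * Fintype.card T * ((S.card : ℝ) / (2 * Fintype.card T)) ^ (2 ^ i)) ^ 2 =
        2 * Fintype.card T * (2 * Fintype.card T *
          ((S.card : ℝ) / (2 * Fintype.card T)) ^ (2 ^ (i + 1))) := by
      rw [pow_succ 2 i, pow_mul]
      ring
    rw [h5] at h4
    exact le_of_mul_le_mul_left h4 hN

/-- **Flats.** A set with more than `4 N^(1 - 1/2^(d-1))` elements contains a coset of a subgroup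
of order `2^d`. -/
theorem flat (h2 : ∀ x : T, x * x = 1) (S : Finset T) (d : ℕ)
    (hS : 4 * (Fintype.card T : ℝ) ^ (1 - 1 / (2 : ℝ) ^ d) < S.card) :
    ∃ (W : Finset T) (c : T), IsSub W (d + 1) ∧ ∀ w ∈ W, c * w ∈ S := by
  have hN1 : (1 : ℝ) ≤ Fintype.card T := by
    have : 0 < Fintype.card T := Fintype.card_pos
    exact_mod_cast this
  have hN0 : (0 : ℝ) < Fintype.card T := by linarith
  set N : ℝ := (Fintype.card T : ℝ) with hN
  have hratio : 2 * N ^ (-(1 / (2 : ℝ) ^ d)) ≤ (S.card : ℝ) / (2 * N) := by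
    rw [le_div_iff₀ (by positivity)]
    have : 2 * N ^ (-(1 / (2 : ℝ) ^ d)) * (2 * N) = 4 * N ^ (1 - 1 / (2 : ℝ) ^ d) := by
      rw [sub_eq_add_neg, Real.rpow_add hN0, Real.rpow_one]
      ring
    rw [this]
    exact hS.le
  have hlow : ∀ j ≤ d, (2 : ℝ) * 2 ^ (2 ^ j) ≤
      2 * N * ((S.card : ℝ) / (2 * N)) ^ (2 ^ j) := by
    intro j hj
    have h1 : (2 * N ^ (-(1 / (2 : ℝ) ^ d))) ^ (2 ^ j) ≤ ((S.card : ℝ) / (2 * N)) ^ (2 ^ j) :=
      pow_le_pow_left₀ (by positivity) hratio _
    have h3 : N⁻¹ ≤ (N ^ (-(1 / (2 : ℝ) ^ d))) ^ (2 ^ j) := by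
      rw [← Real.rpow_natCast, ← Real.rpow_mul hN0.le, ← Real.rpow_neg_one]
      refine Real.rpow_le_rpow_of_exponent_le hN1 ?_
      push_cast
      rw [neg_mul, neg_le_neg_iff, one_div, inv_mul_le_iff₀ (by positivity), mul_one]
      exact pow_le_pow_right₀ (by norm_num) hj
    calc (2 : ℝ) * 2 ^ (2 ^ j) = 2 * N * (2 ^ (2 ^ j) * N⁻¹) := by
          field_simp
      _ ≤ 2 * N * (2 ^ (2 ^ j) * (N ^ (-(1 / (2 : ℝ) ^ d))) ^ (2 ^ j)) := by gcongr
      _ = 2 * N * (2 * N ^ (-(1 / (2 : ℝ) ^ d))) ^ (2 ^ j) := by rw [mul_pow]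
      _ ≤ _ := by gcongr
  have hlt : ∀ j : ℕ, j < 2 ^ j := fun j => Nat.lt_two_pow_self
  obtain ⟨H, B, hH, hBS, hB, hcard⟩ := iter h2 S d (by
    intro j hj
    refine le_trans ?_ (hlow j hj.le)
    rw [pow_succ, mul_comm]
    refine mul_le_mul_of_nonneg_left ?_ (by norm_num)
    exact pow_le_pow_right₀ (by norm_num) (hlt j).le)
  have hBc : H.card < B.card := by
    have h3 : (2 : ℝ) * 2 ^ (2 ^ d) ≤ B.card := (hlow d le_rfl).trans hcard
    have h4 : ((2 : ℕ) ^ d : ℝ) < 2 * 2 ^ (2 ^ d) := by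
      have h5 : ((2 : ℕ) ^ d : ℝ) ≤ 2 ^ (2 ^ d) := by
        push_cast
        exact pow_le_pow_right₀ (by norm_num) (hlt d).le
      have h6 : (0 : ℝ) < 2 ^ (2 ^ d) := by positivity
      linarith
    rw [hH.card]
    exact_mod_cast h4.trans_le h3
  obtain ⟨c, hc⟩ : B.Nonempty := by
    rw [← card_pos]
    omega
  -- an element of `B` outside the coset `c H`
  obtain ⟨c', hc', hcc⟩ : ∃ c' ∈ B, c * c' ∉ H := by
    by_contra hcon
    push Not at hcon
    have : B.card ≤ H.card := by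
      refine card_le_card_of_injOn (fun x => c * x) (fun x hx => hcon x hx) ?_
      intro x _ y _ hxy
      exact mul_left_cancel hxy
    omega
  refine ⟨_, c, hH.extend h2 hcc, ?_⟩
  intro w hw
  rw [mem_union, mem_image] at hw
  rcases hw with hw | ⟨x, hx, rfl⟩
  · exact hBS (hB c hc w hw)
  · have : c * (c * c' * x) = c' * x := by
      rw [← mul_assoc, ← mul_assoc, h2, one_mul]
    rw [this]
    exact hBS (hB c' hc' x hx)

end Pool.Agent.Lib.MP_9a747a_co_h91
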